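import Pool.Agent.H8.RG.Main

/-!
# Regular resolution and the pigeonhole principle with infinitely many pigeons

Every regular resolution refutation of the functional pigeonhole principle with `n` holes and
infinitely many pigeons has size at least `exp (√n / 300) / 4`; if only `m` pigeons occur in it,
its size is at least `2 ^ (n / (38400 (log m + 2)) - 2)`.
-/

set_option autoImplicit false

namespace Pool.Agent.Results.MP_7560bd_lc.RegularResolution

open Pool.Agent.H8.RG

/-- **Main theorem.** Let `R` be a regular resolution refutation of the functional pigeonhole
principle with `n` holes in which `m = R.pigeons.card` pigeons occur and which has `S = R.size`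
lines. Then `n ≤ 38400 (log m + 2) (log S + 2)` (logarithms to the base two, rounded down) and
`exp (√n / 300) ≤ 4 S`. -/
theorem result (n : ℕ) (R : Refutation n) (hR : R.IsRegular) :
    n ≤ 38400 * (Nat.log 2 R.pigeons.card + 2) * (Nat.log 2 R.size + 2) ∧
      Real.exp (Real.sqrt n / 300) ≤ 4 * R.size :=
  ⟨main_bound n R hR, main_exp n R hR⟩

end Pool.Agent.Results.MP_7560bd_lc.RegularResolution
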