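import Pool.Agent.H13.UB.Main

/-!
# An upper bound `2 ^ O(√n)` for the pigeonhole principle with infinitely many pigeons

The pigeonhole principle with `n` holes and infinitely many pigeons has (ordered, regular)
resolution refutations of size `2 ^ O(√n)`; more generally, with `m = 8 K 2 ^ (n / K)` pigeons it
has such refutations of size `2 ^ (72 K + 4) m ^ 5`.
-/

set_option autoImplicit false

namespace Pool.Agent.Results.MP_7560bd_lc.SqrtUpperBound

open Pool.Agent.H8.RG Pool.Agent.H13.UB

/-- **Main theorem.** (1) For all `n` and all `K ≥ 1` there is a resolution refutation of the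
(plain) pigeonhole principle with `n` holes and `m = 8 K 2 ^ ⌊n / K⌋` pigeons which is ordered and
regular and has at most `2 ^ (72 K + 4) m ^ 5` lines. (2) For all `n ≥ 1` there is an ordered and
regular resolution refutation of the (plain) pigeonhole principle with `n` holes and infinitely
many pigeons which has at most `2 ^ (106 ⌊√n⌋)` lines. -/
theorem result :
    (∀ n K : ℕ, 1 ≤ K → ∃ R : Refutation n, IsPlain R ∧ IsOrdered R ∧ R.IsRegular ∧
      OnPigeons R (8 * K * 2 ^ (n / K)) ∧
      R.size ≤ 2 ^ (72 * K + 4) * (8 * K * 2 ^ (n / K)) ^ 5) ∧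
    (∀ n : ℕ, 1 ≤ n → ∃ R : Refutation n, IsPlain R ∧ IsOrdered R ∧ R.IsRegular ∧
      R.size ≤ 2 ^ (106 * Nat.sqrt n)) := by
  constructor
  · intro n K hK
    obtain ⟨R, h1, h2, h3, h4⟩ := upper_param n K hK
    exact ⟨R, h2, h1, h1.isRegular, h3, h4⟩
  · intro n hn
    obtain ⟨R, h1, h2, h3⟩ := upper_sqrt n hn
    exact ⟨R, h2, h1, h1.isRegular, h3⟩

end Pool.Agent.Results.MP_7560bd_lc.SqrtUpperBound
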